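import Pool.Agent.Q207.AShad2

/-!
# Factors of systems with average shadowing

Both the average shadowing property and the asymptotic average shadowing property pass from a
compact dynamical system to all its factors.
-/

set_option autoImplicit false

open Filter Finset Topology

namespace Pool.Agent.Results.MP_bdee7b_an.FactorsInherit

universe u v

/-- The average `(1/n) (a 0 + … + a (n-1))`. -/
noncomputable def avg (a : ℕ → ℝ) (n : ℕ) : ℝ := (∑ i ∈ range n, a i) / n

/-- `(x_i)` is a `δ`-average-pseudo-orbit of `f`: there is `N` such that for all `n ≥ N` and all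
`k ≥ 0` the average of `d(f(x_{i+k}), x_{i+k+1})` over `0 ≤ i < n` is less than `δ`. -/
def IsAveragePseudoOrbit {X : Type u} [MetricSpace X] (f : X → X) (δ : ℝ) (x : ℕ → X) : Prop :=
  ∃ N : ℕ, ∀ n, N ≤ n → ∀ k : ℕ, avg (fun i => dist (f (x (i + k))) (x (i + k + 1))) n < δ

/-- The average shadowing property: for every `ε > 0` there is `δ > 0` such that for every
`δ`-average-pseudo-orbit there is a point `z` for which the upper limit of the averages of
`d(f^i(z), x_i)` is less than `ε`. -/
def AverageShadowing {X : Type u} [MetricSpace X] (f : X → X) : Prop :=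
  ∀ ε : ℝ, 0 < ε → ∃ δ : ℝ, 0 < δ ∧ ∀ x : ℕ → X, IsAveragePseudoOrbit f δ x →
    ∃ z : X, limsup (fun n => avg (fun i => dist (f^[i] z) (x i)) n) atTop < ε

/-- The asymptotic average shadowing property: if the averages of `d(f(x_i), x_{i+1})` tend to zero
then there is a point `z` such that the averages of `d(f^i(z), x_i)` tend to zero. -/
def AsymptoticAverageShadowing {X : Type u} [MetricSpace X] (f : X → X) : Prop :=
  ∀ x : ℕ → X, Tendsto (fun n => avg (fun i => dist (f (x i)) (x (i + 1))) n) atTop (𝓝 0) →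
    ∃ z : X, Tendsto (fun n => avg (fun i => dist (f^[i] z) (x i)) n) atTop (𝓝 0)

section Proof

open Pool.Agent.Q207.AShad (bdd lin iter blk seg jmp err lift jump_le diag avg_nonneg avg_mono
  avg_add avg_mul avg_const avg_lin avg_cesaro avg_transfer jmp_const_le jmp_le2 blk_le lt_blk)

theorem avg_eq : @avg = @Pool.Agent.Q207.AShad.avg := rfl

variable {X : Type u} {Y : Type v} [MetricSpace X] [CompactSpace X] [MetricSpace Y]
  [CompactSpace Y] {f : X → X} {g : Y → Y} {π : X → Y}

theorem average_factor (hg : Continuous g) (hπ : Continuous π)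
    (hs : Function.Surjective π) (hc : ∀ x, π (f x) = g (π x)) (H : AverageShadowing f) :
    AverageShadowing g := by
  intro ε hε
  set ε' := ε / 5 with hε'
  have he : 0 < ε' := by positivity
  obtain ⟨Cπ, hCπ0, hCπ⟩ := lin hπ he
  obtain ⟨δ1, hδ1, H1⟩ := H (ε' / (Cπ + 1)) (by positivity)
  obtain ⟨D, hD0, hD⟩ := bdd X
  obtain ⟨DY, hDY0, hDY⟩ := bdd Y
  obtain ⟨M, hM⟩ := exists_nat_gt (2 * D / δ1 + 1)
  have hMr : (1 : ℝ) < M := by
    have : 0 ≤ 2 * D / δ1 := by positivity
    linarith
  have hM1 : 1 ≤ M := by exact_mod_cast hMr.le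
  have hMD : 2 * D < δ1 * M := by
    have h1 : 2 * D / δ1 < M := by linarith
    rw [div_lt_iff₀ hδ1] at h1
    linarith
  obtain ⟨C, hC0, hC⟩ := iter hg M ε' he
  refine ⟨ε' / (C * M + 1), by positivity, fun y hy => ?_⟩
  obtain ⟨N, hN⟩ := hy
  choose x0 hx0 using fun j => hs (y j)
  set L : ℕ → ℕ := fun _ => M with hL
  have hL1 : ∀ t, 1 ≤ L t := fun _ => hM1
  have hps : IsAveragePseudoOrbit f δ1 (seg L f x0) := by
    refine ⟨M, fun n hn k => ?_⟩
    have h1 := jump_le (f := f) hD L x0 k n
    have h2 : (M : ℝ) * jmp L k n ≤ n + M := by exact_mod_cast jmp_const_le hM1 k n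
    have hMn : (M : ℝ) ≤ n := by exact_mod_cast hn
    have hn0 : (0 : ℝ) < n := by linarith
    show (∑ i ∈ range n, _) / (n : ℝ) < δ1
    rw [div_lt_iff₀ hn0]
    refine lt_of_le_of_lt h1 ?_
    have h3 : (M : ℝ) * (D * jmp L k n) < M * (δ1 * n) := by
      calc (M : ℝ) * (D * jmp L k n) = D * (M * jmp L k n) := by ring
        _ ≤ D * (n + M) := mul_le_mul_of_nonneg_left h2 hD0
        _ ≤ D * (2 * n) := mul_le_mul_of_nonneg_left (by linarith) hD0
        _ = 2 * D * n := by ring
        _ < δ1 * M * n := mul_lt_mul_of_pos_right hMD hn0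
        _ = M * (δ1 * n) := by ring
    exact lt_of_mul_lt_mul_left h3 (by linarith)
  obtain ⟨z, hz⟩ := H1 _ hps
  refine ⟨π z, ?_⟩
  have hbd : IsBoundedUnder (· ≤ ·) atTop (fun n => avg (fun i => dist (f^[i] z) (seg L f x0 i)) n) :=
    isBoundedUnder_of ⟨D, fun n => (avg_mono (fun i => hD _ _) n).trans (avg_const hD0 n)⟩
  have hev := eventually_lt_of_limsup_lt hz hbd
  have hfin : ∀ᶠ n : ℕ in atTop, avg (fun i => dist (g^[i] (π z)) (y i)) n ≤ 4 * ε' := by
    filter_upwards [hev, eventually_ge_atTop (max N 1)] with n h1 hn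
    have hn1 : (0 : ℝ) < n := by
      have : 1 ≤ n := (le_max_right _ _).trans hn
      exact_mod_cast this
    have h2 : avg (fun i => dist (g^[i] (π z)) (y i)) n ≤
        avg (fun i => dist (g^[i] (π z)) (seg L g y i)) n +
          avg (fun i => dist (seg L g y i) (y i)) n := by
      refine (avg_mono (fun i => dist_triangle _ (seg L g y i) _) n).trans_eq ?_
      exact avg_add _ _ n
    have h3 : avg (fun i => dist (g^[i] (π z)) (seg L g y i)) n ≤
        ε' + Cπ * avg (fun i => dist (f^[i] z) (seg L f x0 i)) n := by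
      refine avg_lin he.le (fun i => ?_) n
      have h4 : g^[i] (π z) = π (f^[i] z) := by
        have h : Function.Semiconj π f g := hc
        exact ((h.iterate_right i).eq z).symm
      rw [h4, ← lift hc L hx0 i]
      exact hCπ _ _
    have h5 : Cπ * avg (fun i => dist (f^[i] z) (seg L f x0 i)) n ≤ ε' := by
      have h6 : Cπ * avg (fun i => dist (f^[i] z) (seg L f x0 i)) n ≤ Cπ * (ε' / (Cπ + 1)) :=
        mul_le_mul_of_nonneg_left h1.le hCπ0
      have h7 : Cπ * (ε' / (Cπ + 1)) ≤ ε' := by
        rw [← mul_div_assoc, div_le_iff₀ (by positivity)]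
        nlinarith
      linarith
    have h8 : avg (fun i => dist (seg L g y i) (y i)) n ≤ 2 * ε' := by
      have h9 := err (L := L) hL1 (g := g) (C := fun M' => if M' ≤ M then C else 0)
        (ε := fun M' => if M' ≤ M then ε' else DY) (fun M' => by split_ifs <;> simp [hC0])
        (fun M' y' b r hr => by
          by_cases hM' : M' ≤ M
          · simp only [if_pos hM']
            exact hC y' b r (hr.trans hM')
          · simp only [if_neg hM']
            rw [zero_mul, add_zero]
            exact hDY _ _) y n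
      simp only [hL, le_refl, if_true, Finset.sum_const, Finset.card_range, nsmul_eq_mul] at h9
      rw [← Finset.mul_sum] at h9
      have h10 := hN n ((le_max_left _ _).trans hn) 0
      simp only [add_zero] at h10
      have h11 : ∑ i ∈ range n, dist (g (y i)) (y (i + 1)) < ε' / (C * M + 1) * n := by
        rw [show avg (fun i => dist (g (y i)) (y (i + 1))) n =
          (∑ i ∈ range n, dist (g (y i)) (y (i + 1))) / n from rfl, div_lt_iff₀ hn1] at h10
        exact h10
      show (∑ i ∈ range n, _) / (n : ℝ) ≤ 2 * ε'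
      rw [div_le_iff₀ hn1]
      refine h9.trans ?_
      have h12 : C * M * ∑ i ∈ range n, dist (g (y i)) (y (i + 1)) ≤
          C * M * (ε' / (C * M + 1) * n) := mul_le_mul_of_nonneg_left h11.le (by positivity)
      have h13 : C * M * (ε' / (C * M + 1)) ≤ ε' := by
        rw [← mul_div_assoc, div_le_iff₀ (by positivity)]
        nlinarith
      nlinarith
    linarith
  have hco : IsCoboundedUnder (· ≤ ·) atTop (fun n => avg (fun i => dist (g^[i] (π z)) (y i)) n) :=
    (isBoundedUnder_of ⟨0, fun n => avg_nonneg (fun i => dist_nonneg) n⟩ :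
      IsBoundedUnder (· ≥ ·) atTop _).isCoboundedUnder_le
  have := limsup_le_of_le hco hfin
  have h14 : 4 * ε' < ε := by rw [hε']; linarith
  linarith

theorem asymptotic_factor (hg : Continuous g) (hπ : Continuous π)
    (hs : Function.Surjective π) (hc : ∀ x, π (f x) = g (π x))
    (H : AsymptoticAverageShadowing f) : AsymptoticAverageShadowing g := by
  intro y hy
  obtain ⟨D, hD0, hD⟩ := bdd X
  choose C hC0 hC using fun M : ℕ => iter hg M (1 / ((M : ℝ) + 1)) (by positivity)
  set W : ℕ → ℝ := fun M => ∑ j ∈ range (M + 1), C j * j with hW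
  have hWnn : ∀ M, 0 ≤ W M := fun M => Finset.sum_nonneg fun j _ => mul_nonneg (hC0 j) (by positivity)
  have hWm : Monotone W := by
    refine monotone_nat_of_le_succ fun M => ?_
    simp only [hW]
    rw [Finset.sum_range_succ _ (M + 1)]
    have := mul_nonneg (hC0 (M + 1)) (Nat.cast_nonneg (α := ℝ) (M + 1))
    linarith
  have hWC : ∀ M, C M * M ≤ W M := fun M =>
    Finset.single_le_sum (f := fun j : ℕ => C j * (j : ℝ))
      (fun j _ => mul_nonneg (hC0 j) (by positivity)) (Finset.mem_range.2 (Nat.lt_succ_self M))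
  obtain ⟨L, hLm, hLt, hL1, hLW⟩ := diag hWnn
    (a := fun n => avg (fun i => dist (g (y i)) (y (i + 1))) n)
    (fun n => avg_nonneg (fun i => dist_nonneg) n) hy
  choose x0 hx0 using fun j => hs (y j)
  -- the block starts tend to infinity
  have hbt : Tendsto (blk L) atTop atTop := by
    rw [tendsto_atTop]
    intro B
    filter_upwards [eventually_ge_atTop (B + L B)] with i hi
    by_contra hlt
    have h1 := lt_blk hL1 i
    have h2 : L (blk L i) ≤ L B := hLm (by omega)
    omega
  -- the lifted sequence is an asymptotic average pseudo-orbit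
  have hps : Tendsto (fun n => avg (fun i => dist (f (seg L f x0 i)) (seg L f x0 (i + 1))) n)
      atTop (𝓝 0) := by
    rw [Metric.tendsto_atTop]
    intro ε hε
    obtain ⟨K, hK⟩ := exists_nat_gt (2 * D / ε + 1)
    have hKr : (1 : ℝ) < K := by
      have : 0 ≤ 2 * D / ε := by positivity
      linarith
    have hKD : 2 * D < ε * K := by
      have h1 : 2 * D / ε < K := by linarith
      rw [div_lt_iff₀ hε] at h1
      linarith
    obtain ⟨T, hT⟩ := eventually_atTop.1 (hLt.eventually_ge_atTop K)
    refine ⟨K * T + 1, fun n hn => ?_⟩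
    have hn1 : (0 : ℝ) < n := by
      have : 1 ≤ n := by omega
      exact_mod_cast this
    rw [Real.dist_eq, sub_zero,
      show |avg (fun i => dist (f (seg L f x0 i)) (seg L f x0 (i + 1))) n| =
        avg (fun i => dist (f (seg L f x0 i)) (seg L f x0 (i + 1))) n from
        abs_of_nonneg (avg_nonneg (fun i => dist_nonneg) n)]
    have h1 := jump_le (f := f) hD L x0 0 n
    simp only [add_zero] at h1
    have h2 : K * jmp L 0 n ≤ 2 * n := by
      have h3 := jmp_le2 hL1 hT n
      have h4 := blk_le (L := L) n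
      omega
    have h2' : (K : ℝ) * jmp L 0 n ≤ 2 * n := by exact_mod_cast h2
    show (∑ i ∈ range n, _) / (n : ℝ) < ε
    rw [div_lt_iff₀ hn1]
    refine lt_of_le_of_lt h1 ?_
    have h3 : (K : ℝ) * (D * jmp L 0 n) < K * (ε * n) := by
      calc (K : ℝ) * (D * jmp L 0 n) = D * (K * jmp L 0 n) := by ring
        _ ≤ D * (2 * n) := mul_le_mul_of_nonneg_left h2' hD0
        _ = 2 * D * n := by ring
        _ < ε * K * n := mul_lt_mul_of_pos_right hKD hn1
        _ = K * (ε * n) := by ring
    exact lt_of_mul_lt_mul_left h3 (by linarith)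
  obtain ⟨z, hz⟩ := H _ hps
  refine ⟨π z, ?_⟩
  have h1 : Tendsto (fun n => avg (fun i => dist (g^[i] (π z)) (seg L g y i)) n) atTop (𝓝 0) := by
    refine avg_transfer (fun i => dist_nonneg) (fun ε hε => ?_) hz
    obtain ⟨Cπ, hCπ0, hCπ⟩ := lin hπ hε
    refine ⟨Cπ, hCπ0, fun i => ?_⟩
    have h4 : g^[i] (π z) = π (f^[i] z) := by
      have h : Function.Semiconj π f g := hc
      exact ((h.iterate_right i).eq z).symm
    rw [h4, ← lift hc L hx0 i]
    exact hCπ _ _
  have h2 : Tendsto (fun n => avg (fun i => dist (seg L g y i) (y i)) n) atTop (𝓝 0) := by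
    have h3 : Tendsto (fun i => 1 / ((L (blk L i) : ℝ) + 1)) atTop (𝓝 0) :=
      tendsto_one_div_add_atTop_nhds_zero_nat.comp (hLt.comp hbt)
    have h4 := (avg_cesaro h3).add hLW
    rw [add_zero] at h4
    refine squeeze_zero (fun n => avg_nonneg (fun i => dist_nonneg) n) (fun n => ?_) h4
    have h5 := err (L := L) hL1 (g := g) (C := C) (ε := fun M => 1 / ((M : ℝ) + 1)) hC0
      (fun M y' b r hr => hC M y' b r hr) y n
    show (∑ i ∈ range n, _) / (n : ℝ) ≤ (∑ i ∈ range n, _) / (n : ℝ) +
      W (L n) * ((∑ i ∈ range n, _) / (n : ℝ))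
    rw [← mul_div_assoc, ← add_div, Finset.mul_sum]
    refine div_le_div_of_nonneg_right (h5.trans ?_) (Nat.cast_nonneg n)
    refine add_le_add le_rfl (Finset.sum_le_sum fun s hs => ?_)
    have hsn := Finset.mem_range.1 hs
    have h6 := blk_le (L := L) s
    exact mul_le_mul_of_nonneg_right ((hWC _).trans (hWm (hLm (by omega)))) dist_nonneg
  have h3 := h1.add h2
  rw [add_zero] at h3
  refine squeeze_zero (fun n => avg_nonneg (fun i => dist_nonneg) n) (fun n => ?_) h3
  refine (avg_mono (fun i => dist_triangle _ (seg L g y i) _) n).trans_eq ?_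
  exact avg_add _ _ n

end Proof

/-- **Theorem.** Let `(X, f)` and `(Y, g)` be compact metric spaces with continuous self-maps and
let `π : X → Y` be a continuous surjection with `π ∘ f = g ∘ π`. If `(X, f)` has the average
shadowing property then so does `(Y, g)`; if `(X, f)` has the asymptotic average shadowing property
then so does `(Y, g)`. -/
theorem result (X : Type u) (Y : Type v) [MetricSpace X] [CompactSpace X] [MetricSpace Y]
    [CompactSpace Y] (f : X → X) (g : Y → Y) (_ : Continuous f) (hg : Continuous g)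
    (π : X → Y) (hπ : Continuous π) (hs : Function.Surjective π) (hc : π ∘ f = g ∘ π) :
    (AverageShadowing f → AverageShadowing g) ∧
      (AsymptoticAverageShadowing f → AsymptoticAverageShadowing g) :=
  ⟨average_factor hg hπ hs (fun x => congrFun hc x),
    asymptotic_factor hg hπ hs (fun x => congrFun hc x)⟩

end Pool.Agent.Results.MP_bdee7b_an.FactorsInherit
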